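import Pool.Agent.H466.HD.SB

/-!
# Few zeros near a regular point (`S_ZC` of the project HD of helper466)
-/

set_option autoImplicit false

namespace Pool.Agent.H653.HD

open Complex MeasureTheory Set Filter Topology
open scoped ComplexConjugate
open Pool.Agent.H466.HF Pool.Agent.H466.LD Pool.Agent.H466.HP Pool.Agent.H466.HN
open Pool.Agent.H466.HD
open Pool.Agent.H862.VK (Yz)

theorem zc (h : S_UH) : S_ZC := by
  obtain ⟨δ', Kc, hδ', hKc, hU⟩ := h
  obtain ⟨A00, K00, μ00, Q00, T00, -, -, -, kk, -⟩ := far_data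
  refine ⟨24, by norm_num, ?_⟩
  intro ρ hρ hρ1
  obtain ⟨κ', hκ', hU⟩ := hU (ρ ^ 2) (by positivity)
  refine ⟨min κ' 1, min δ' (1 / (49 * Kc)), lt_min hκ' one_pos, lt_min hδ' (by positivity), ?_⟩
  intro κ hκ hκ0 A1 hA1
  obtain ⟨A', T', hA', hT', hU⟩ := hU κ hκ (hκ0.trans (min_le_left _ _)) A1 hA1
  refine ⟨max A' A1, T', hA'.trans (le_max_left _ _), hT', ?_⟩
  intro T t μ hT hTt ht2 hR hμ hA hd hex S hS
  have hU := hU T t μ hT hTt ht2 hR hμ ((le_max_left _ _).trans hA)
    (hd.trans (min_le_left _ _))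
  set L := Real.log T with hL
  have hT10 : (10 : ℝ) ≤ T := hT'.trans hT
  have hL1 : 1 ≤ L := by
    rw [hL, Real.le_log_iff_exp_le (by linarith)]
    linarith [Real.exp_one_lt_d9]
  have hLp : 0 < L := by linarith
  have hκ1 : κ ≤ 1 := hκ0.trans (min_le_right _ _)
  have hA1' : A1 ≤ μ * L ^ 2 := (le_max_right _ _).trans hA
  have hΔ : 0 < μ * L := by positivity
  -- the reference size is positive
  have hG : 0 < Gm T t μ := by
    unfold Gm
    rw [← hL]
    apply mul_pos _ (Real.exp_pos _)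
    rw [norm_pos_iff]
    apply F_ne
    apply cone_ne (t := t) (y0 := A1 / L) (x1 := μ * L) (M := 1 / κ) (by positivity) (by
      rw [le_div_iff₀ hκ]; linarith) hR.cf
    refine ⟨?_, ?_, ?_⟩
    · simp only [add_re, ofReal_re, mul_re, I_re, mul_zero, ofReal_im, I_im, mul_one, sub_self,
        add_zero]
      rw [div_le_iff₀ hLp]
      calc A1 ≤ μ * L ^ 2 := hA1'
        _ = μ * L * L := by ring
    · simp
    · have : ((((μ * L : ℝ) : ℂ) + (t : ℂ) * I).im - t) = 0 := by simp
      rw [this, abs_zero]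
      simp only [add_re, ofReal_re, mul_re, I_re, mul_zero, ofReal_im, I_im, mul_one, sub_self,
        add_zero]
      positivity
  obtain ⟨z0, hz0, hz0'⟩ := hex
  set G := Gm T t μ with hGdef
  set A := μ * L ^ 2 with hAdef
  have hAp : 0 < A := by positivity
  have hμL : μ * L ^ 2 = A := rfl
  have hΔL : L * (μ * L) = A := by rw [hAdef]; ring
  have hΔ2 : (μ * L) ^ 2 = μ * A := by rw [hAdef]; ring
  have hμ49 : 49 * Kc * μ ≤ 1 := by
    have h1 : μ ≤ μ * L := by nlinarith
    have h2 : μ ≤ 1 / (49 * Kc) := h1.trans (hd.trans (min_le_right _ _))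
    rw [le_div_iff₀ (by positivity)] at h2
    linarith
  set R := 6 * ρ * (μ * L) with hRdef
  have hRp : 0 < R := by positivity
  set U := 49 / 4 * (ρ ^ 2 * A) + ρ ^ 2 * (A + 7 / 16 * A) + ρ ^ 2 * A with hUdef
  have hFd : Differentiable ℂ (LL gk (-μ)) := kk.differentiable (-μ)
  -- the upper bound
  have hup : ∀ p : ℂ, ‖p - (t : ℂ) * I‖ ≤ 7 * ρ * (μ * L) →
      ‖LL gk (-μ) p‖ ≤ G * Real.exp U := by
    intro p hp
    have hre : |p.re| ≤ 7 * ρ * (μ * L) := by
      have h1 := (abs_re_le_norm _).trans hp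
      simpa using h1
    have him : |p.im - t| ≤ 7 * ρ * (μ * L) := by
      have h1 := (abs_im_le_norm _).trans hp
      simpa using h1
    have hsym : ‖LL gk (-μ) p‖ = ‖LL gk (-μ) ((|p.re| : ℝ) + (p.im : ℂ) * I)‖ := by
      rcases le_or_gt 0 p.re with h1 | h1
      · rw [abs_of_nonneg h1, re_add_im]
      · have h2 : (((|p.re| : ℝ) : ℂ) + (p.im : ℂ) * I) = -conj p := by
          rw [abs_of_neg h1]
          apply Complex.ext <;> simp
        rw [h2, Flam_fe, RCLike.norm_conj]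
    rw [hsym]
    have h60 : |p.im - t| ≤ 60 * (μ * L) := by
      refine him.trans ?_
      apply mul_le_mul_of_nonneg_right _ hΔ.le
      linarith
    refine (hU |p.re| p.im (abs_nonneg _) h60).trans ?_
    apply mul_le_mul_of_nonneg_left _ hG.le
    apply Real.exp_le_exp.mpr
    have hq : |p.re| / (μ * L) ≤ 7 * ρ := by
      rw [div_le_iff₀ hΔ]; exact hre
    have hq0 : 0 ≤ |p.re| / (μ * L) := by positivity
    have hpf : pf (|p.re| / (μ * L)) ≤ 49 / 4 * ρ ^ 2 := by
      unfold pf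
      rw [if_pos (hq.trans (by linarith))]
      have := pow_le_pow_left₀ hq0 hq 2
      nlinarith
    have e1 : A * pf (|p.re| / (μ * L)) ≤ 49 / 4 * (ρ ^ 2 * A) := by
      have := mul_le_mul_of_nonneg_left hpf hAp.le
      linarith
    have e2 : L * |p.re| ≤ 7 / 16 * A := by
      have h1 := mul_le_mul_of_nonneg_left hre hLp.le
      have h2 : L * (7 * ρ * (μ * L)) = 7 * ρ * A := by rw [hAdef]; ring
      rw [h2] at h1
      refine h1.trans ?_
      apply mul_le_mul_of_nonneg_right _ hAp.le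
      linarith
    have e3 : ρ ^ 2 * (A + L * |p.re|) ≤ ρ ^ 2 * (A + 7 / 16 * A) :=
      mul_le_mul_of_nonneg_left (by linarith) (by positivity)
    have e4 : Kc * |p.re| ^ 2 ≤ ρ ^ 2 * A := by
      have h1 := pow_le_pow_left₀ (abs_nonneg _) hre 2
      have h2 := mul_le_mul_of_nonneg_left h1 hKc.le
      refine h2.trans ?_
      have h3 : Kc * (7 * ρ * (μ * L)) ^ 2 = (49 * Kc * μ) * (ρ ^ 2 * A) := by
        rw [mul_pow, hΔ2]; ring
      rw [h3]
      have h4 : 0 ≤ ρ ^ 2 * A := by positivity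
      nlinarith
    rw [hUdef]
    linarith
  have hz0p : 0 < G * Real.exp (-(ρ ^ 2 * A)) := by positivity
  have hne0 : LL gk (-μ) z0 ≠ 0 := by
    rw [← norm_pos_iff]
    exact hz0p.trans_le hz0'
  have hjen := jen_weight hFd (C := z0) (R := R) (B := G * Real.exp U)
    (b := G * Real.exp (-(ρ ^ 2 * A))) (ℒ := 0) hRp hz0p le_rfl (by
      intro z hz
      rw [zero_mul, Real.exp_zero, mul_one]
      apply hup
      have h1 : z0 + z - (t : ℂ) * I = (z0 - (t : ℂ) * I) + z := by ring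
      rw [h1]
      refine (norm_add_le _ _).trans ?_
      have h2 : ‖z0 - (t : ℂ) * I‖ + ‖z‖ ≤ ρ * (μ * L) + 6 * ρ * (μ * L) := add_le_add hz0 hz
      linarith) hz0' S (fun _ => Real.log 2) (fun u hu => (hS u hu).1)
    (fun u hu _ => ?_) (fun u hu hlt => ?_)
  · rw [mul_zero, add_zero, mul_div_mul_left _ _ hG.ne', ← Real.exp_sub, Real.log_exp,
      ← Finset.sum_mul] at hjen
    have hl2 := Real.log_two_gt_d9
    have hn : 0 ≤ ∑ u ∈ S, (analyticOrderNatAt (LL gk (-μ)) u : ℝ) :=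
      Finset.sum_nonneg fun _ _ => Nat.cast_nonneg _
    have hρA : 0 < ρ ^ 2 * A := by positivity
    have h1 : U - -(ρ ^ 2 * A) ≤ 16 * (ρ ^ 2 * A) := by
      rw [hUdef]
      nlinarith
    have h2 : (∑ u ∈ S, (analyticOrderNatAt (LL gk (-μ)) u : ℝ)) * (2 / 3) ≤
        16 * (ρ ^ 2 * A) := by
      refine le_trans ?_ (hjen.trans h1)
      apply mul_le_mul_of_nonneg_left _ hn
      linarith
    linarith
  · have h1 : 0 < ‖u - z0‖ := by
      rw [norm_pos_iff, sub_ne_zero]
      intro h2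
      rw [← h2] at hne0
      exact hne0 (hS u hu).1
    have h3 : ‖u - z0‖ ≤ 3 * ρ * (μ * L) := by
      have h4 : u - z0 = (u - (t : ℂ) * I) - (z0 - (t : ℂ) * I) := by ring
      rw [h4]
      refine (norm_sub_le _ _).trans ?_
      have h5 := (hS u hu).2
      linarith
    apply Real.log_le_log (by norm_num)
    rw [le_div_iff₀ h1, hRdef]
    linarith
  · exfalso
    have h3 : ‖u - z0‖ ≤ 3 * ρ * (μ * L) := by
      have h4 : u - z0 = (u - (t : ℂ) * I) - (z0 - (t : ℂ) * I) := by ring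
      rw [h4]
      refine (norm_sub_le _ _).trans ?_
      have h5 := (hS u hu).2
      linarith
    have h6 : 0 < ρ * (μ * L) := by positivity
    rw [hRdef] at hlt
    linarith

end Pool.Agent.H653.HD
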